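import Pool.Agent.Q205.MAD.Main
import Pool.Agent.Q220.MAD.Gap

/-!
There is a `Π⁰₁` class of computable sets which is almost disjoint and maximal for computable sets.

For a string `s` of natural numbers of length `ν` let `ψ_s` enumerate, in increasing order and
slowly, elements of the `ν`-th computable set that are outside the sets given by those
`ψ_{s ↾ j}`, `j < ν`, with `s(j) = 0`; here `s(j) = 0` is the guess that `ψ_{s ↾ j}` is total, and
`s(j) = n + 1` is the guess that it has exactly `n` values, and the enumeration only proceeds as long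
as the guesses look correct. The class consists of all sets `{m, r₀ < r₁ < …}` such that `m` is the
code of a string `s` and every `r_w` except perhaps the last one is the `w`-th value of `ψ_s`, found
before stage `r_{w+1}`.
-/

namespace Pool.Agent.Results.MP_054fd8_lc.ComputablyMAD

open Pool.Agent.Q205.MAD
open Nat.Partrec (Code)
open Nat.Partrec.Code Denumerable Encodable

/-- The class. -/
def P : Set (ℕ → Bool) := {X | ∀ r, Good (fun x => X x = true) r}

theorem good_congr {X Y : ℕ → Prop} {r : ℕ} (h : ∀ x, x ≤ r → (X x ↔ Y x)) :
    Good X r ↔ Good Y r := by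
  unfold Good
  rw [h r le_rfl]
  refine imp_congr Iff.rfl (or_congr ?_ ?_)
  · exact forall_congr' fun x => forall_congr' fun hx => not_congr (h x hx.le)
  · refine exists_congr fun m => and_congr Iff.rfl ?_
    exact forall_congr' fun x => forall_congr' fun hx => by rw [h x hx.le]

theorem seg_getD (X : ℕ → Bool) {n x : ℕ} (h : x < n) : (seg X n).getD x false = X x := by
  unfold seg
  rw [List.getD_eq_getElem?_getD, List.getElem?_map, List.getElem?_range h]
  rfl

theorem seg_length (X : ℕ → Bool) (n : ℕ) : (seg X n).length = n := by simp [seg]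

theorem isPi01Class : IsPi01Class P := by
  refine ⟨Tree, primrec_computablePred tree_primrec, ?_, ?_⟩
  · intro σ τ h r hr
    have h1 := h r (by rw [List.length_append]; omega)
    refine (good_congr fun x hx => ?_).1 h1
    have h2 : (σ ++ τ).getD x false = σ.getD x false := by
      rw [List.getD_eq_getElem?_getD, List.getD_eq_getElem?_getD,
        List.getElem?_append_left (by omega)]
    rw [h2]
  · ext X
    constructor
    · intro h n r hr
      rw [seg_length] at hr
      refine (good_congr fun x hx => ?_).2 (h r)
      rw [seg_getD X (by omega)]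
    · intro h r
      have h1 := h (r + 1) r (by rw [seg_length]; omega)
      refine (good_congr fun x hx => ?_).1 h1
      rw [seg_getD X (by omega)]

/-- Infinite members. -/
theorem infinite_member {X : ℕ → Bool} (hX : X ∈ P) (hinf : {n | X n = true}.Infinite) :
    ∃ s : List ℕ, Inf s ∧ ∀ x, X x = true ↔ x ∈ XS s := by
  obtain ⟨s, hs⟩ := eq_XS (X := fun x => X x = true) hX fun n => by
    obtain ⟨r, hr, hnr⟩ := hinf.exists_gt n
    exact ⟨r, hnr, hr⟩
  refine ⟨s, ?_, hs⟩
  rcases inf_or_lim s with h | ⟨n, t₀, hn⟩
  · exact h
  · exfalso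
    apply hinf
    have hfin : ({encode s} ∪ ((L s t₀).toFinset : Set ℕ)).Finite :=
      (Set.finite_singleton _).union (Finset.finite_toSet _)
    refine hfin.subset fun x hx => ?_
    rcases (hs x).1 hx with h | ⟨t, h⟩
    · exact Or.inl h
    · right
      rw [Finset.mem_coe, List.mem_toFinset]
      have hconst : ∀ t, t₀ ≤ t → ∀ x, x ∈ L s t → x ∈ L s t₀ := by
        intro t ht
        induction t, ht using Nat.le_induction with
        | base => exact fun x hx => hx
        | succ t ht ih =>
          intro x hx
          rcases step s t with ⟨r, -, -, h3, -⟩ | ⟨-, h2, -⟩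
          · have h4 := hn (t + 1) (by omega)
            have h5 := hn t ht
            rw [h3, List.length_cons] at h4
            omega
          · rw [h2] at hx; exact ih x hx
      rcases Nat.le_total t₀ t with h7 | h7
      · exact hconst t h7 x h
      · exact L_mono s h7 x h

theorem computable_of_finite {X : ℕ → Bool} (h : {n | X n = true}.Finite) : Computable X := by
  classical
  have h1 : PrimrecPred fun x : ℕ => ∃ y ∈ h.toFinset.toList, y = x :=
    (Primrec.eq (α := ℕ)).exists_mem_list.comp (Primrec.const _) Primrec.id
  obtain ⟨inst, h2⟩ := h1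
  refine h2.to_comp.of_eq fun x => ?_
  cases hx : X x
  · refine decide_eq_false ?_
    rintro ⟨y, hy, rfl⟩
    rw [Finset.mem_toList, Set.Finite.mem_toFinset] at hy
    have hy' : X y = true := hy
    rw [hx] at hy'
    exact Bool.noConfusion hy'
  · refine decide_eq_true ?_
    refine ⟨x, ?_, rfl⟩
    rw [Finset.mem_toList, Set.Finite.mem_toFinset]
    exact hx

theorem computable_member {X : ℕ → Bool} (hX : X ∈ P) : Computable X := by
  by_cases hfin : {n | X n = true}.Finite
  · exact computable_of_finite hfin
  · obtain ⟨s, hs, h⟩ := infinite_member hX hfin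
    obtain ⟨Y, hY, hYs⟩ := computable_XS hs
    have : X = Y := by
      funext x
      rw [Bool.eq_iff_iff, h, hYs]
    rw [this]; exact hY

theorem almostDisjoint {X Y : ℕ → Bool} (hX : X ∈ P) (hY : Y ∈ P) (hne : X ≠ Y) :
    AlmostDisjoint X Y := by
  unfold AlmostDisjoint
  by_cases hXf : {n | X n = true}.Finite
  · exact hXf.subset fun x hx => hx.1
  by_cases hYf : {n | Y n = true}.Finite
  · exact hYf.subset fun x hx => hx.2
  obtain ⟨s, hs, h⟩ := infinite_member hX hXf
  obtain ⟨s', hs', h'⟩ := infinite_member hY hYf
  have hfin : ({encode s, encode s'} : Set ℕ).Finite := by simp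
  have hss : s ≠ s' := by
    rintro rfl
    apply hne
    funext x
    rw [Bool.eq_iff_iff, h, h']
  refine hfin.subset ?_
  rintro x ⟨hx, hx'⟩
  rw [h] at hx
  rw [h'] at hx'
  rcases lt_trichotomy s.length s'.length with hl | hl | hl
  · exact ad_aux hs hs' hl x hx hx'
  · exact absurd (tr_unique rfl hl.symm hs.tr hs'.tr) hss
  · exact (ad_aux hs' hs hl x hx' hx).symm

/-- A computable member for a correct guess. -/
theorem exists_member {s : List ℕ} (hs : Inf s) : ∃ X ∈ P, Computable X ∧
    ∀ x, X x = true ↔ x ∈ XS s := by
  obtain ⟨X, hX, h⟩ := computable_XS hs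
  refine ⟨X, fun r => ?_, hX, h⟩
  exact (good_congr fun x _ => h x).2 (XS_good s r)

theorem maximal {R : ℕ → Bool} (hR : Computable R) (hinf : {n | R n = true}.Infinite) :
    ∃ X ∈ P, Computable X ∧ {n | X n = true ∧ R n = true}.Infinite := by
  classical
  -- a code of `R`
  have hR' : Computable fun n => (R n).toNat := by
    have h1 : Computable fun n => bif R n then 1 else 0 :=
      Computable.cond hR (Computable.const 1) (Computable.const 0)
    exact h1.of_eq fun n => by cases R n <;> rfl
  obtain ⟨c, hc⟩ := exists_code.1 (Partrec.nat_iff.1 hR'.partrec)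
  obtain ⟨s, hsl, hsT⟩ := exists_tr (encode c)
  have hcode : ofNat Code s.length = c := by rw [hsl, ofNat_encode]
  by_cases hj : ∃ j, j < s.length ∧ s.getD j 0 = 0 ∧ {x | x ∈ XS (s.take j) ∧ R x = true}.Infinite
  · obtain ⟨j, hj1, hj2, hj3⟩ := hj
    have hI : Inf (s.take j) := by
      rcases hsT j hj1 with ⟨-, h⟩ | ⟨h, -⟩
      · exact h
      · exact absurd hj2 h
    obtain ⟨X, hX, hXc, hXs⟩ := exists_member hI
    refine ⟨X, hX, hXc, ?_⟩
    have e : {n | X n = true ∧ R n = true} = {x | x ∈ XS (s.take j) ∧ R x = true} := by
      ext x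
      exact and_congr (hXs x) Iff.rfl
    rw [e]; exact hj3
  · push Not at hj
    have hI : Inf s := by
      rcases inf_or_lim s with h | ⟨n, t₀, hn⟩
      · exact h
      · exfalso
        -- a number of `R` outside the other sets
        have hfin : (⋃ j ∈ Finset.range s.length,
            (if s.getD j 0 = 0 then {x | x ∈ XS (s.take j) ∧ R x = true} else ∅)).Finite := by
          refine Set.Finite.biUnion (Finset.finite_toSet _) fun j hj' => ?_
          split_ifs with h0
          · exact hj j (Finset.mem_range.1 hj') h0
          · exact Set.finite_empty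
        obtain ⟨r, ⟨hrR, hrn⟩, hra⟩ := (hinf.sdiff hfin).exists_gt (a s t₀)
        have hrR' : R r = true := hrR
        have hr : ∀ j, j < s.length → s.getD j 0 = 0 → r ∉ XS (s.take j) := by
          intro j hj1 hj2 hj3
          apply hrn
          refine Set.mem_biUnion (Finset.mem_coe.2 (Finset.mem_range.2 hj1)) ?_
          rw [if_pos hj2]
          exact ⟨hj3, hrR'⟩
        -- a late stage
        have hev : ∃ k, evaln k c r = some 1 := by
          have h1 : (1 : ℕ) ∈ eval c r := by
            rw [hc]
            show (1 : ℕ) ∈ Part.some (R r).toNat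
            rw [hrR']
            exact Part.mem_some _
          obtain ⟨k, hk⟩ := evaln_complete.1 h1
          exact ⟨k, hk⟩
        obtain ⟨k, hk⟩ := hev
        have hst : ∀ j, j < s.length → ∃ u, ∀ t, u ≤ t →
            (s.getD j 0 = 0 → (∃ x ∈ (st (s.take j) t).1, r < x) ∧ r ∉ (st (s.take j) t).1) ∧
            (s.getD j 0 ≠ 0 → (st (s.take j) t).1.length + 1 = s.getD j 0) := by
          intro j hj1
          rcases hsT j hj1 with ⟨h0, hI⟩ | ⟨h0, v, hv⟩
          · obtain ⟨u, x, hx, hrx⟩ := hI.exists_gt r
            refine ⟨u, fun t ht => ⟨fun _ => ⟨⟨x, L_mono _ ht x hx, hrx⟩, fun h => ?_⟩,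
              fun h => absurd h0 h⟩⟩
            exact hr j hj1 h0 (Or.inr ⟨t, h⟩)
          · refine ⟨v, fun t ht => ⟨fun h => absurd h h0, fun _ => ?_⟩⟩
            have := hv t ht
            have h2 : (st (s.take j) t).1.length = s.getD j 0 - 1 := this
            omega
        have hall : ∃ u, ∀ j, j < s.length → ∀ t, u ≤ t →
            (s.getD j 0 = 0 → (∃ x ∈ (st (s.take j) t).1, r < x) ∧ r ∉ (st (s.take j) t).1) ∧
            (s.getD j 0 ≠ 0 → (st (s.take j) t).1.length + 1 = s.getD j 0) := by
          choose! u hu using hst
          refine ⟨(Finset.range s.length).sup u, fun j hj1 t ht => hu j hj1 t ?_⟩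
          exact (Finset.le_sup (Finset.mem_range.2 hj1)).trans ht
        obtain ⟨u, hu⟩ := hall
        set t := max (max t₀ r) (max k u) with ht
        have hta : a s t = a s t₀ := by
          have h1 : ∀ t, t₀ ≤ t → a s t = a s t₀ := by
            intro t ht
            induction t, ht using Nat.le_induction with
            | base => rfl
            | succ t ht ih =>
              rcases step s t with ⟨r, -, -, h3, -⟩ | ⟨-, -, h2⟩
              · have h4 := hn (t + 1) (by omega)
                have h5 := hn t ht
                rw [h3, List.length_cons] at h4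
                omega
              · rw [h2]; exact ih
          exact h1 t (by omega)
        have hC : C s t r := by
          refine ⟨?_, ?_, fun j hj1 => hu j hj1 t (by omega)⟩
          · show a s t ≤ r
            rw [hta]; exact hra.le
          · rw [hcode]
            exact evaln_mono (show k ≤ t by omega) hk
        rcases step s t with ⟨r', -, -, h3, -⟩ | ⟨h1, -, -⟩
        · have h4 := hn (t + 1) (by omega)
          have h5 := hn t (by omega)
          rw [h3, List.length_cons] at h4
          omega
        · exact h1 r (by omega) (by omega) hC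
    obtain ⟨X, hX, hXc, hXs⟩ := exists_member hI
    refine ⟨X, hX, hXc, ?_⟩
    -- the values are in `R`
    have hsub : ∀ t, ∀ x ∈ L s t, R x = true := by
      intro t x hx
      obtain ⟨t', -, -, h2, -, -⟩ := added hx
      have h3 := evaln_sound h2.2.1
      rw [hcode, hc] at h3
      have h4 : (1 : ℕ) ∈ Part.some (R x).toNat := h3
      rw [Part.mem_some_iff] at h4
      cases hRx : R x
      · rw [hRx] at h4
        exact absurd h4 (by decide)
      · rfl
    rw [Set.infinite_iff_exists_gt]
    intro n
    obtain ⟨t, x, hx, hnx⟩ := hI.exists_gt n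
    exact ⟨x, ⟨(hXs x).2 (Or.inr ⟨t, hx⟩), hsub t x hx⟩, hnx⟩

/-- A finite conjunction of computable sets. -/
theorem computable_outside (F : Finset (ℕ → Bool)) (hF : ∀ X ∈ F, Computable X) :
    ∃ R : ℕ → Bool, Computable R ∧ ∀ x, R x = true ↔ ∀ X ∈ F, X x = false := by
  classical
  induction F using Finset.induction_on with
  | empty => exact ⟨fun _ => true, Computable.const true, by simp⟩
  | insert X F _ ih =>
    obtain ⟨R, hR, h⟩ := ih fun Y hY => hF Y (Finset.mem_insert_of_mem hY)
    refine ⟨fun x => bif X x then false else R x,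
      Computable.cond (hF X (Finset.mem_insert_self _ _)) (Computable.const false) hR, fun x => ?_⟩
    cases hX : X x
    · simp only [cond_false, h, Finset.mem_insert, forall_eq_or_imp, hX, true_and]
    · simp only [cond_true, Bool.false_eq_true, Finset.mem_insert, forall_eq_or_imp, hX,
        Bool.true_eq_false, false_and]

/-- The class has infinitely many infinite members. -/
theorem infinitely_many : {X ∈ P | {n | X n = true}.Infinite}.Infinite := by
  classical
  intro hfin
  set F : Finset (ℕ → Bool) := hfin.toFinset with hF
  have hmem : ∀ X, X ∈ F ↔ X ∈ P ∧ {n | X n = true}.Infinite := fun X => by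
    rw [hF, Set.Finite.mem_toFinset]; rfl
  obtain ⟨R, hR, hRx⟩ := computable_outside F fun X hX => computable_member ((hmem X).1 hX).1
  have hs : ∀ X ∈ F, ∃ s : List ℕ, Inf s ∧ ∀ x, X x = true ↔ x ∈ XS s := fun X hX =>
    infinite_member ((hmem X).1 hX).1 ((hmem X).1 hX).2
  choose! σ hσ hσx using hs
  have hinf : {n | R n = true}.Infinite := by
    refine (Pool.Agent.Q220.MAD.compl_infinite (F.image σ) ?_).mono ?_
    · intro s hs'
      obtain ⟨X, hX, rfl⟩ := Finset.mem_image.1 hs'
      exact hσ X hX
    · intro x hx
      have hx' : ∀ s ∈ F.image σ, x ∉ XS s := hx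
      show R x = true
      rw [hRx]
      intro X hX
      have h1 := hx' (σ X) (Finset.mem_image_of_mem σ hX)
      rw [← hσx X hX] at h1
      simpa using h1
  obtain ⟨X, hX, -, hXR⟩ := maximal hR hinf
  have hXF : X ∈ F := (hmem X).2 ⟨hX, hXR.mono fun n hn => hn.1⟩
  obtain ⟨n, hn⟩ := hXR.nonempty
  have h1 := (hRx n).1 hn.2 X hXF
  rw [hn.1] at h1
  exact Bool.noConfusion h1

/-- There is a `Π⁰₁` class with infinitely many infinite members, all whose members are computable
and any two distinct members of which are almost disjoint, such that every infinite computable set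
has infinite intersection with some member. -/
theorem result : ∃ P : Set (ℕ → Bool), IsPi01Class P ∧ (∀ X ∈ P, Computable X) ∧
    {X ∈ P | {n | X n = true}.Infinite}.Infinite ∧
    (∀ X ∈ P, ∀ Y ∈ P, X ≠ Y → AlmostDisjoint X Y) ∧
    ∀ R : ℕ → Bool, Computable R → {n | R n = true}.Infinite →
      ∃ X ∈ P, Computable X ∧ {n | X n = true ∧ R n = true}.Infinite :=
  ⟨P, isPi01Class, fun _ hX => computable_member hX, infinitely_many,
    fun _ hX _ hY hne => almostDisjoint hX hY hne, fun _ hR hinf => maximal hR hinf⟩

end Pool.Agent.Results.MP_054fd8_lc.ComputablyMAD
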